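import Pool.Agent.Run7.h802.HP.Iface

/-! Piece DENS of the project of helper802: the counting. -/

set_option autoImplicit false

namespace Pool.Agent.Run7.h796.HP

open MvPolynomial Pool.Agent.Run7.h802.HP

section box

variable {σ : Type} [Fintype σ]

open Classical in
/-- the box -/
noncomputable def box (σ : Type) [Fintype σ] (H : ℕ) : Finset (σ → ℤ) :=
  Fintype.piFinset fun _ : σ => Finset.Icc (-(H : ℤ)) H

lemma mem_box (H : ℕ) (b : σ → ℤ) : b ∈ box σ H ↔ ∀ i, |b i| ≤ H := by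
  simp [box, abs_le]

lemma card_box (H : ℕ) : ((box σ H).card : ℝ) = (2 * (H : ℝ) + 1) ^ Fintype.card σ := by
  classical
  have h : (box σ H).card = (2 * H + 1) ^ Fintype.card σ := by
    unfold box
    rw [Fintype.card_piFinset, Finset.prod_const, Int.card_Icc, Finset.card_univ]
    congr 1
    omega
  rw [h]
  push_cast
  rfl

open Classical in
lemma natcard_box (H : ℕ) (P : (σ → ℤ) → Prop) :
    Nat.card {b : σ → ℤ // (∀ i, |b i| ≤ H) ∧ P b} = ((box σ H).filter P).card := by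
  have h : {b : σ → ℤ | (∀ i, |b i| ≤ H) ∧ P b} = ((box σ H).filter P : Finset (σ → ℤ)) := by
    ext b
    simp [mem_box]
  change Nat.card ({b : σ → ℤ | (∀ i, |b i| ≤ H) ∧ P b} : Set (σ → ℤ)) = _
  rw [Nat.card_coe_set_eq, h, Set.ncard_coe_finset]

lemma card_cover (H : ℕ) (P1 P2 P3 : (σ → ℤ) → Prop)
    (hc : ∀ b : σ → ℤ, ¬ P1 b → ¬ P2 b → P3 b) :
    (2 * (H : ℝ) + 1) ^ Fintype.card σ ≤
      (Nat.card {b : σ → ℤ // (∀ i, |b i| ≤ H) ∧ P1 b} : ℝ) +
      (Nat.card {b : σ → ℤ // (∀ i, |b i| ≤ H) ∧ P2 b} : ℝ) +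
      (Nat.card {b : σ → ℤ // (∀ i, |b i| ≤ H) ∧ P3 b} : ℝ) := by
  classical
  rw [natcard_box, natcard_box, natcard_box]
  have hcover : box σ H ⊆ (box σ H).filter P1 ∪ (box σ H).filter P2 ∪ (box σ H).filter P3 := by
    intro b hb
    rw [Finset.mem_union, Finset.mem_union, Finset.mem_filter, Finset.mem_filter,
      Finset.mem_filter]
    by_cases q1 : P1 b
    · exact Or.inl (Or.inl ⟨hb, q1⟩)
    by_cases q2 : P2 b
    · exact Or.inl (Or.inr ⟨hb, q2⟩)
    exact Or.inr ⟨hb, hc b q1 q2⟩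
  have hcard := (Finset.card_le_card hcover).trans ((Finset.card_union_le _ _).trans
    (Nat.add_le_add_right (Finset.card_union_le _ _) _))
  rw [← card_box (σ := σ) H]
  exact_mod_cast hcard

end box

lemma good_congr {n d : ℕ} (a b : Mon n d → ℤ) (p : ℕ) (h : ∀ m, (p : ℤ) ∣ b m - a m)
    (ha : GoodAt a p) : GoodAt b p := by
  intro k _ _ x hx
  apply ha k x
  have e : (fun m => ((a m : ℤ) : k)) = fun m => ((b m : ℤ) : k) := by
    funext m
    have h1 : (((b m - a m : ℤ)) : k) = 0 := (CharP.intCast_eq_zero_iff k p _).2 (h m)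
    push_cast at h1
    exact (sub_eq_zero.1 h1).symm
  rw [e]
  exact hx

/-- the first half -/
lemma dens_main (hS : S_SIEVE) (hZ : S_ZERO) (hD : S_DISC) (hP : S_PTS)
    (n d : ℕ) (hn : 1 ≤ n) (hd : 3 ≤ d) (Model : (Mon n d → ℤ) → Prop)
    (hM : ∀ a, GenSmooth a → (∀ p : ℕ, p.Prime → GoodAt a p ∨ NodeAt a p) → Model a)
    (ε : ℝ) (hε : 0 < ε) : ∃ B : ℕ, ∀ Q : ℕ, 0 < Q → (∀ p : ℕ, p.Prime → p ≤ B → p ∣ Q) →
    ∀ c : Mon n d → ℤ, (∀ p : ℕ, p.Prime → p ∣ Q → GoodAt c p) → ∃ H₀ : ℕ, ∀ H : ℕ, H₀ ≤ H →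
      (1 - ε) * (2 * (H : ℝ) + 1) ^ Fintype.card (Mon n d) ≤
        (Nat.card {b : Mon n d → ℤ // (∀ m, |b m| ≤ H) ∧ Model fun m => c m + Q * b m} : ℝ) := by
  classical
  obtain ⟨h, g, r, hh, hrel, p1, p2⟩ := hD n d hn hd
  have hpts := hP n d h g r p1 p2
  obtain ⟨B, hB⟩ := hS (Mon n d) h g hrel (ε / 2) (by positivity)
  refine ⟨B, fun Q hQ hQB c hc => ?_⟩
  obtain ⟨H₁, hH₁⟩ := hB Q hQ hQB c
  obtain ⟨H₂, hH₂⟩ := hZ (Mon n d) h hh (ε / 2) (by positivity) Q hQ c
  refine ⟨max H₁ H₂, fun H hH => ?_⟩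
  have b1 := hH₁ H ((le_max_left _ _).trans hH)
  have b2 := hH₂ H ((le_max_right _ _).trans hH)
  have hcov := card_cover (σ := Mon n d) H
    (fun b => ∃ p : ℕ, p.Prime ∧ ¬ p ∣ Q ∧ (p : ℤ) ∣ eval (fun i => c i + Q * b i) h ∧
      (p : ℤ) ∣ eval (fun i => c i + Q * b i) g)
    (fun b => eval (fun i => c i + Q * b i) h = 0)
    (fun b => Model fun m => c m + Q * b m) (fun b q1 q2 => ?_)
  · linarith
  · have key := hpts (fun m => c m + Q * b m) q2
    refine hM _ key.1 fun p hp => ?_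
    by_cases hpQ : p ∣ Q
    · left
      refine good_congr c _ p (fun m => ?_) (hc p hp hpQ)
      have : (p : ℤ) ∣ (Q : ℤ) := by exact_mod_cast hpQ
      simpa using this.mul_right (b m)
    · apply key.2 p hp
      rintro ⟨u, v⟩
      exact q1 ⟨p, hp, hpQ, u, v⟩

lemma crt {ι : Type} (a : ℕ → ι → ℤ) (S : Finset ℕ) (hS : ∀ p ∈ S, p.Prime) :
    ∃ c : ι → ℤ, ∀ p ∈ S, ∀ i, (p : ℤ) ∣ c i - a p i := by
  classical
  induction S using Finset.induction_on with
  | empty => exact ⟨fun _ => 0, by simp⟩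
  | insert q S hq ih =>
    obtain ⟨c, hc⟩ := ih fun p hp => hS p (Finset.mem_insert_of_mem hp)
    have hqp : q.Prime := hS q (Finset.mem_insert_self _ _)
    have hcop : Nat.Coprime (∏ p ∈ S, p) q := by
      apply Nat.Coprime.prod_left
      intro p hp
      rw [Nat.coprime_primes (hS p (Finset.mem_insert_of_mem hp)) hqp]
      rintro rfl
      exact hq hp
    have hcz : IsCoprime ((∏ p ∈ S, p : ℕ) : ℤ) (q : ℤ) := Nat.isCoprime_iff_coprime.2 hcop
    obtain ⟨u, v, huv⟩ := hcz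
    refine ⟨fun i => c i + (a q i - c i) * (u * ((∏ p ∈ S, p : ℕ) : ℤ)), fun p hp i => ?_⟩
    rcases Finset.mem_insert.1 hp with rfl | hp
    · have : c i + (a p i - c i) * (u * ((∏ p ∈ S, p : ℕ) : ℤ)) - a p i =
          (p : ℤ) * (-((a p i - c i) * v)) := by
        have e : u * ((∏ p ∈ S, p : ℕ) : ℤ) = 1 - v * p := by linarith
        rw [e]; ring
      rw [this]
      exact dvd_mul_right _ _
    · have h1 := hc p hp i
      have h2 : (p : ℤ) ∣ ((∏ p ∈ S, p : ℕ) : ℤ) := by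
        exact_mod_cast Finset.dvd_prod_of_mem (fun p => p) hp
      have : c i + (a q i - c i) * (u * ((∏ p ∈ S, p : ℕ) : ℤ)) - a p i =
          (c i - a p i) + (a q i - c i) * u * ((∏ p ∈ S, p : ℕ) : ℤ) := by ring
      rw [this]
      exact dvd_add h1 (h2.mul_left _)

theorem dens (hS : S_SIEVE) (hZ : S_ZERO) (hD : S_DISC) (hSm : S_SMOOTH) (hP : S_PTS) :
    S_DENS := by
  classical
  intro n d hn hd Model hM
  refine ⟨dens_main hS hZ hD hP n d hn hd Model hM, ?_⟩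
  obtain ⟨B, hB⟩ := dens_main hS hZ hD hP n d hn hd Model hM (1 / 2) (by norm_num)
  choose a ha using fun p : ℕ => fun hp : p.Prime => hSm n d hn hd p hp
  obtain ⟨c, hc⟩ := crt (ι := Mon n d) (fun p m => if hp : p.Prime then a p hp m else 0)
    ((Finset.range (B + 1)).filter Nat.Prime) (fun p hp => (Finset.mem_filter.1 hp).2)
  set Q : ℕ := B.factorial with hQ
  have hQ0 : 0 < Q := Nat.factorial_pos B
  have hgood : ∀ p : ℕ, p.Prime → p ∣ Q → GoodAt c p := by
    intro p hp hpQ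
    have hpB : p ≤ B := (hp.dvd_factorial).1 hpQ
    have hmem : p ∈ (Finset.range (B + 1)).filter Nat.Prime := by
      simp only [Finset.mem_filter, Finset.mem_range]
      exact ⟨by omega, hp⟩
    have h1 := hc p hmem
    simp only [hp, dif_pos] at h1
    exact good_congr (a p hp) c p h1 (ha p hp)
  obtain ⟨H₀, hH₀⟩ := hB Q hQ0 (fun p hp hpB => (hp.dvd_factorial).2 hpB) c hgood
  obtain ⟨C, hC⟩ : ∃ C : ℕ, ∀ m, |c m| ≤ C := by
    refine ⟨∑ m, (c m).natAbs, fun m => ?_⟩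
    have : (c m).natAbs ≤ ∑ m, (c m).natAbs :=
      Finset.single_le_sum (f := fun m => (c m).natAbs) (fun _ _ => Nat.zero_le _)
        (Finset.mem_univ m)
    rw [Int.abs_eq_natAbs]
    exact_mod_cast this
  refine ⟨1 / 2 * (1 / (2 * (Q : ℝ))) ^ Fintype.card (Mon n d), by positivity,
    Q * H₀ + 4 * C + 2 * Q + 1, fun H hH => ?_⟩
  set H' : ℕ := (H - C) / Q with hH'
  have hH'0 : H₀ ≤ H' := by
    rw [hH', Nat.le_div_iff_mul_le hQ0, mul_comm]
    omega
  have key := hH₀ H' hH'0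
  have hle : Q * H' + C ≤ H := by
    have h1 : Q * H' ≤ H - C := Nat.mul_div_le (H - C) Q
    have h2 : C ≤ H := by
      have : 0 ≤ Q * H₀ := Nat.zero_le _
      linarith
    omega
  have hge : H - C < Q * H' + Q := by
    have := Nat.lt_mul_div_succ (H - C) hQ0
    rw [Nat.mul_add, mul_one] at this
    exact this
  have hinj : Nat.card {b : Mon n d → ℤ // (∀ m, |b m| ≤ H') ∧ Model fun m => c m + Q * b m} ≤
      Nat.card {a : Mon n d → ℤ // (∀ m, |a m| ≤ H) ∧ Model a} := by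
    rw [natcard_box, natcard_box]
    apply Finset.card_le_card_of_injOn (fun b m => c m + Q * b m)
    · intro b hb
      rw [Finset.mem_coe, Finset.mem_filter, mem_box] at hb
      rw [Finset.mem_coe, Finset.mem_filter, mem_box]
      refine ⟨fun m => ?_, hb.2⟩
      have h1 := hb.1 m
      have h2 := hC m
      have h3 : |c m + Q * b m| ≤ |c m| + Q * |b m| := by
        calc |c m + Q * b m| ≤ |c m| + |(Q : ℤ) * b m| := abs_add_le _ _
          _ = |c m| + Q * |b m| := by rw [abs_mul, Nat.abs_cast]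
      have h4 : (Q : ℤ) * |b m| ≤ Q * H' := mul_le_mul_of_nonneg_left h1 (by positivity)
      have h5 : (Q : ℤ) * H' + C ≤ H := by exact_mod_cast hle
      linarith
    · intro b _ b' _ hbb
      funext m
      have h1 := congrFun hbb m
      simp only [add_right_inj] at h1
      exact mul_left_cancel₀ (by exact_mod_cast hQ0.ne') h1
  have hinj' : (Nat.card {b : Mon n d → ℤ // (∀ m, |b m| ≤ H') ∧
      Model fun m => c m + Q * b m} : ℝ) ≤
      (Nat.card {a : Mon n d → ℤ // (∀ m, |a m| ≤ H) ∧ Model a} : ℝ) := by exact_mod_cast hinj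
  refine le_trans ?_ (key.trans hinj')
  have hQr : (0 : ℝ) < Q := by exact_mod_cast hQ0
  have hcmp : 1 / (2 * (Q : ℝ)) * (2 * (H : ℝ) + 1) ≤ 2 * (H' : ℝ) + 1 := by
    rw [div_mul_eq_mul_div, one_mul, div_le_iff₀ (by positivity)]
    have e1 : (H : ℝ) < Q * H' + Q + C := by
      have : H < Q * H' + Q + C := by omega
      exact_mod_cast this
    have e2 : (Q : ℝ) * H₀ + 4 * C + 2 * Q + 1 ≤ H := by exact_mod_cast hH
    have e3 : (0 : ℝ) ≤ Q * H₀ := by positivity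
    nlinarith
  calc 1 / 2 * (1 / (2 * (Q : ℝ))) ^ Fintype.card (Mon n d) *
        (2 * (H : ℝ) + 1) ^ Fintype.card (Mon n d)
      = 1 / 2 * (1 / (2 * (Q : ℝ)) * (2 * (H : ℝ) + 1)) ^ Fintype.card (Mon n d) := by
        rw [mul_pow]; ring
    _ ≤ 1 / 2 * (2 * (H' : ℝ) + 1) ^ Fintype.card (Mon n d) := by
        apply mul_le_mul_of_nonneg_left _ (by norm_num)
        exact pow_le_pow_left₀ (by positivity) hcmp _
    _ = (1 - 1 / 2) * (2 * (H' : ℝ) + 1) ^ Fintype.card (Mon n d) := by norm_num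

end Pool.Agent.Run7.h796.HP
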